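import Pool.Agent.H20LW.E

/-!
# Algebraic logarithms of numbers that are algebraic over `ℚ(π)`

Let `B` be a rational vector space of algebraic numbers and `K = ℚ(π, e^c : c ∈ B)`.  The algebraic
numbers `a` such that `e^a` is algebraic over `K` form, modulo `B`, a rational vector space of
dimension at most one; if `B` is closed under complex conjugation, then conjugation acts on it
as `1` or as `-1`.
-/

namespace Pool.Agent.Results.MP_e33f53_nt.AlgebraicLogarithms

open ComplexConjugate

theorem result (B : Submodule ℚ ℂ) (hB : ∀ c ∈ B, IsAlgebraic ℚ c) :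
    ∃ a₀ : ℂ, ((∀ c ∈ B, conj c ∈ B) → (a₀ - conj a₀ ∈ B ∨ a₀ + conj a₀ ∈ B)) ∧
      ∀ a : ℂ, IsAlgebraic ℚ a →
        IsAlgebraic
          (IntermediateField.adjoin ℚ (insert (Real.pi : ℂ) (Complex.exp '' (B : Set ℂ))))
          (Complex.exp a) →
        ∃ q : ℚ, a - q • a₀ ∈ B :=
  Pool.Agent.H20LW.structure_theorem Real.pi B hB

end Pool.Agent.Results.MP_e33f53_nt.AlgebraicLogarithms
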